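import Pool.Agent.Run7.h479.XX.Centre

/-!
# The order of `L(f ⊗ g ⊗ h, s)` at the centre and its sign by traces

Let `f, g, h` be as on the page (`F = ℚ`), and let `a_{v,i}`, `i = 1, …, 8`, be the parameters of
`V_f ⊗ V_g ⊗ V_h` at the prime `v`, so that `L(f ⊗ g ⊗ h, s) = ∏_v ∏_i (1 - a_{v,i} N(v)^(-s))⁻¹` for
`Re s > (k + 1) / 2`, `|a_{v,i}| ≤ N(v)^((k - 1) / 2)` (zeros are allowed at the bad primes). At the good primes
`p` the power sum `∑_i a_{p,i}^j` is `(α^j + α'^j) (β^j + β'^j) (δ^j + δ'^j)`, the product of the traces of the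
`j`-th power of Frobenius in `V_f`, `V_g`, `V_h`. For `γ > π / 2` and `T > 0` put

  `S(T) = ∑_v ∑_(j ≥ 1) (∑_i a_{v,i}^j) / (j N(v)^(j k / 2)) e^(i γ u) / Γ(1 + u)`, `u = j log N(v) / T`.

The series converges absolutely, although the centre `s = k / 2` is outside of the region of convergence of the
Euler product. Let `m` be the order of the entire function `L(f ⊗ g ⊗ h, s)` at `s = k / 2`. Without any
hypothesis on zeros:

(1) `S(T) - S(e T) = m + O(1 / T)`: the order `m` is the integer nearest to `Re (S(T) - S(e T))` for all large `T`;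

(2) for every natural number `d`: `m = d` if and only if `S(T) - S(e T) → d` for `T → ∞` along any filter (for
example along one sequence); so Q1 for `f, g, h` says that this limit is the dimension
`dim_L Hom(V_{gh}, CH^(k/2)(W_(k-2)/H)_{0,L}^[f])`;

(3) a functional equation `Λ(k/2 + s) = w(s) Λ(k/2 - s)`, `Λ(k/2 + s) = q(s) L(k/2 + s)` with the archimedean
factor `q`, which has neither a zero nor a pole at `s = 0`, gives for the sign `w = w(0)`: `w = (-1)^m` and so
`w = exp (π i (S(T) - S(e T))) + O(1 / T)`.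

The law for Euler products with complex coefficients at a real point is due to helper453 (library
`Pool.Agent.Run7.h453.CX`), in the form of helper479 (`Pool.Agent.Run7.h479.XX.Centre`).
-/

set_option autoImplicit false

open Filter Topology Set NumberField IsDedekindDomain Run7.h479.XX Asymptotics

namespace Pool.Agent.Results.MP_60ff09_nt.OrderAndSignByTraces

variable {F : Type} [Field F] [NumberField F] {n : ℕ}

/-- `L` is the L-function: entire, and the Euler product for `Re s > (k + 1) / 2` with the parameters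
`a_{v,i}`, `|a_{v,i}| ≤ N(v)^((k - 1) / 2)` (`nm v = N(v)`). -/
structure IsLFunction (k : ℕ) (a : HeightOneSpectrum (𝓞 F) → Fin n → ℂ) (L : ℂ → ℂ) : Prop where
  bound : ∀ v i, ‖a v i‖ ≤ nm v ^ (((k : ℝ) - 1) / 2)
  euler : ∀ s : ℂ, ((k : ℝ) + 1) / 2 < s.re → L s = ∏' v : HeightOneSpectrum (𝓞 F),
    ∏ i, (1 - a v i * (nm v : ℂ) ^ (-s))⁻¹
  entire : Differentiable ℂ L

/-- The centre `k / 2`. -/
noncomputable def centre (k : ℕ) : ℂ := (((k : ℝ) / 2 : ℝ) : ℂ)

/-- `Λ(k/2 + s) = w(s) Λ(k/2 - s)` near `s = 0`, where `Λ(k/2 + s) = q(s) L(k/2 + s)`, the archimedean factor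
`q` is analytic and not `0` at `0`, `w(s)` is continuous at `0` and `w(0) = w₀`. -/
def IsSign (k : ℕ) (L : ℂ → ℂ) (w₀ : ℂ) : Prop :=
  ∃ q w : ℂ → ℂ, AnalyticAt ℂ q 0 ∧ q 0 ≠ 0 ∧ ContinuousAt w 0 ∧ w 0 = w₀ ∧
    ∀ᶠ s in 𝓝 (0 : ℂ), q s * L (centre k + s) = w s * (q (-s) * L (centre k - s))

/-- The term of `S(T)` for `v = x.1` and `j = x.2`; `weight γ T t = e^(i γ t / T) / Γ(1 + t / T)`. -/
noncomputable def term (k : ℕ) (a : HeightOneSpectrum (𝓞 F) → Fin n → ℂ) (γ T : ℝ)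
    (x : HeightOneSpectrum (𝓞 F) × ℕ+) : ℂ :=
  (∑ i, a x.1 i ^ (x.2 : ℕ)) /
    (((x.2 : ℕ) : ℂ) * ((nm x.1 ^ (((x.2 : ℕ) : ℝ) * ((k : ℝ) / 2)) : ℝ) : ℂ)) *
      weight γ T ((x.2 : ℕ) * Real.log (nm x.1))

/-- `S(T)` -/
noncomputable def sum (k : ℕ) (a : HeightOneSpectrum (𝓞 F) → Fin n → ℂ) (γ T : ℝ) : ℂ :=
  ∑' x, term k a γ T x

/-- `S(T) - S(e T)` -/
noncomputable def diff (k : ℕ) (a : HeightOneSpectrum (𝓞 F) → Fin n → ℂ) (γ T : ℝ) : ℂ :=
  sum k a γ T - sum k a γ (Real.exp 1 * T)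

section proof

variable {a : HeightOneSpectrum (𝓞 F) → Fin n → ℂ} {L : ℂ → ℂ}

theorem sum_eq (k : ℕ) (γ T : ℝ) : sum k a γ T = Centre.sum a ((k : ℝ) / 2) γ T := rfl

theorem IsLFunction.isL {k : ℕ} (h : IsLFunction k a L) :
    Centre.IsL (((k : ℝ) - 1) / 2) ((k : ℝ) / 2) a L where
  norm := h.bound
  euler := fun s hs => h.euler s (by linarith)
  mero := fun x _ _ => (h.entire.analyticAt _).meromorphicAt
  le := by linarith

theorem order {k : ℕ} (h : IsLFunction k a L) : ∃ m : ℕ, analyticOrderAt L (centre k) = m ∧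
    ∀ γ : ℝ, Real.pi / 2 < γ → (fun T : ℝ => diff k a γ T - m) =O[atTop] fun T : ℝ => 1 / T := by
  have han : AnalyticAt ℂ L (centre k) := h.entire.analyticAt _
  have h2 : Real.pi / 2 < Real.pi := by linarith [Real.pi_pos]
  obtain ⟨m₀, ρ₀, C₀, T₀, hm₀, -, -⟩ := h.isL.law h2
  change meromorphicOrderAt L (centre k) = m₀ at hm₀
  obtain ⟨m, hm⟩ : ∃ m : ℕ, analyticOrderAt L (centre k) = m := by
    cases hq : analyticOrderAt L (centre k) with
    | top =>
      rw [han.meromorphicOrderAt_eq, hq] at hm₀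
      exact absurd hm₀.symm (WithTop.coe_ne_top)
    | coe k => exact ⟨k, rfl⟩
  have hmz : meromorphicOrderAt L (centre k) = ((m : ℤ) : WithTop ℤ) := by
    rw [han.meromorphicOrderAt_eq, hm]
    rfl
  refine ⟨m, hm, fun γ hγ => ?_⟩
  obtain ⟨m', ρ, C, T₀, hm', -, hlaw⟩ := h.isL.law hγ
  change meromorphicOrderAt L (centre k) = m' at hm'
  rw [hmz] at hm'
  have hmm : m' = m := by exact_mod_cast hm'.symm
  subst hmm
  have he : (1 : ℝ) ≤ Real.exp 1 := Real.one_le_exp zero_le_one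
  refine IsBigO.of_bound (2 * C) ?_
  filter_upwards [eventually_ge_atTop T₀, eventually_gt_atTop 0] with T hT hT0
  have hT1 : T ≤ Real.exp 1 * T := by nlinarith
  have hT2 : 0 < Real.exp 1 * T := lt_of_lt_of_le hT0 hT1
  have e1 := hlaw T hT
  have e2 := hlaw (Real.exp 1 * T) (hT.trans hT1)
  have hC : 0 ≤ C := by
    have := (norm_nonneg _).trans e1
    rw [div_nonneg_iff] at this
    rcases this with h3 | h3
    · exact h3.1
    · linarith [h3.2]
  have e3 : C / (Real.exp 1 * T) ≤ C / T := div_le_div_of_nonneg_left hC hT0 hT1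
  have e4 : Real.log (Real.exp 1 * T) = 1 + Real.log T := by
    rw [Real.log_mul (Real.exp_pos 1).ne' hT0.ne', Real.log_exp]
  have e5 : diff k a γ T - m =
      (Centre.sum a ((k : ℝ) / 2) γ T - (ρ - m * (Real.log T - Lam γ))) -
      (Centre.sum a ((k : ℝ) / 2) γ (Real.exp 1 * T) -
        (ρ - m * (Real.log (Real.exp 1 * T) - Lam γ))) := by
    unfold diff
    rw [sum_eq, sum_eq, e4]
    push_cast
    ring
  rw [e5, Real.norm_eq_abs, abs_of_pos (by positivity : 0 < 1 / T)]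
  refine (norm_sub_le _ _).trans ?_
  have e6 : 2 * C * (1 / T) = C / T + C / T := by ring
  rw [e6]
  push_cast at e1 e2 ⊢
  exact add_le_add e1 (e2.trans e3)

theorem sign {k m : ℕ} {w₀ : ℂ} (h : IsLFunction k a L) (hm : analyticOrderAt L (centre k) = m)
    (hs : IsSign k L w₀) : w₀ = (-1) ^ m := by
  have han : AnalyticAt ℂ L (centre k) := h.entire.analyticAt _
  obtain ⟨q, hq, hq0, hqg⟩ := (han.analyticOrderAt_eq_natCast).1 hm
  obtain ⟨g, ε, hg, hg0, hε, rfl, hfe⟩ := hs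
  have hneg : Tendsto (fun s : ℂ => -s) (𝓝[≠] 0) (𝓝[≠] 0) := by
    refine tendsto_nhdsWithin_iff.2 ⟨?_, ?_⟩
    · have h1 : Tendsto (fun s : ℂ => -s) (𝓝 0) (𝓝 0) := by
        simpa using (continuous_neg (G := ℂ)).tendsto 0
      exact h1.mono_left nhdsWithin_le_nhds
    · filter_upwards [self_mem_nhdsWithin] with s hs
      simpa using hs
  have hadd : Tendsto (fun s : ℂ => centre k + s) (𝓝 0) (𝓝 (centre k)) := by
    have h1 : Continuous fun s : ℂ => centre k + s := continuous_const.add continuous_id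
    simpa using h1.tendsto 0
  have hqg' : ∀ᶠ s in 𝓝[≠] (0 : ℂ), L (centre k + s) = s ^ m * q (centre k + s) := by
    filter_upwards [(hadd.eventually hqg).filter_mono nhdsWithin_le_nhds] with s hs
    rw [hs, add_sub_cancel_left, smul_eq_mul]
  have key : ∀ᶠ s in 𝓝[≠] (0 : ℂ), g s * q (centre k + s) =
      ε s * ((-1) ^ m * (g (-s) * q (centre k + -s))) := by
    filter_upwards [hfe.filter_mono nhdsWithin_le_nhds, hqg', hneg.eventually hqg',
      self_mem_nhdsWithin] with s h1 h2 h3 h4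
    rw [h2, sub_eq_add_neg, h3, neg_pow] at h1
    have h5 : s ^ m ≠ 0 := pow_ne_zero m h4
    apply mul_left_cancel₀ h5
    linear_combination h1
  have hq' : Tendsto (fun s : ℂ => q (centre k + s)) (𝓝 0) (𝓝 (q (centre k))) :=
    hq.continuousAt.tendsto.comp hadd
  have hl : Tendsto (fun s : ℂ => g s * q (centre k + s)) (𝓝[≠] 0) (𝓝 (g 0 * q (centre k))) :=
    (hg.continuousAt.tendsto.mul hq').mono_left nhdsWithin_le_nhds
  have hr : Tendsto (fun s : ℂ => ε s * ((-1) ^ m * (g (-s) * q (centre k + -s)))) (𝓝[≠] 0)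
      (𝓝 (ε 0 * ((-1) ^ m * (g 0 * q (centre k))))) := by
    refine (hε.tendsto.mono_left nhdsWithin_le_nhds).mul (Tendsto.const_mul _ ?_)
    exact hl.comp hneg
  have hu := tendsto_nhds_unique (hl.congr' key) hr
  have hne : g 0 * q (centre k) ≠ 0 := mul_ne_zero hg0 hq0
  have h1 : (1 : ℂ) = ε 0 * (-1) ^ m := by
    apply mul_right_cancel₀ hne
    linear_combination hu
  have h2 : ((-1 : ℂ) ^ m) * (-1) ^ m = 1 := by
    rw [← mul_pow]
    norm_num
  calc ε 0 = ε 0 * (((-1 : ℂ) ^ m) * (-1) ^ m) := by rw [h2, mul_one]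
    _ = (ε 0 * (-1) ^ m) * (-1) ^ m := by ring
    _ = (-1) ^ m := by rw [← h1, one_mul]

theorem tendsto_of_isBigO {f : ℝ → ℂ} {c : ℂ}
    (h : (fun T : ℝ => f T - c) =O[atTop] fun T : ℝ => 1 / T) : Tendsto f atTop (𝓝 c) := by
  have h1 : Tendsto (fun T : ℝ => f T - c) atTop (𝓝 0) :=
    h.trans_tendsto (tendsto_const_nhds.div_atTop tendsto_id)
  have h2 := h1.add_const c
  simpa using h2

theorem exp_law {f : ℝ → ℂ} {m : ℕ}
    (h : (fun T : ℝ => f T - m) =O[atTop] fun T : ℝ => 1 / T) :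
    (fun T : ℝ => Complex.exp (Real.pi * Complex.I * f T) - (-1) ^ m) =O[atTop]
      fun T : ℝ => 1 / T := by
  have h0 : (fun T : ℝ => Real.pi * Complex.I * (f T - m)) =O[atTop] fun T : ℝ => 1 / T :=
    h.const_mul_left _
  have h1 : Tendsto (fun T : ℝ => Real.pi * Complex.I * (f T - m)) atTop (𝓝 0) :=
    h0.trans_tendsto (tendsto_const_nhds.div_atTop tendsto_id)
  have h2 : (fun z : ℂ => Complex.exp z - 1) =O[𝓝 0] fun z => z := by
    have h3 := (Complex.hasDerivAt_exp 0).isBigO_sub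
    simpa using h3
  have h4 := ((h2.comp_tendsto h1).trans h0).const_mul_left ((-1 : ℂ) ^ m)
  refine h4.congr_left fun T => ?_
  have h5 : Complex.exp (Real.pi * Complex.I * m) = (-1) ^ m := by
    rw [mul_comm, Complex.exp_nat_mul, Complex.exp_pi_mul_I]
  show (-1) ^ m * (Complex.exp (Real.pi * Complex.I * (f T - m)) - 1) = _
  rw [mul_sub, mul_one, ← h5, ← Complex.exp_add]
  congr 2
  ring

end proof

/-- **Theorem.** Let `L` be the L-function with the parameters `a`.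

* `S(T)` converges absolutely for `T > 0` (all real `γ`).
* `L` has a finite order `m` at `k / 2`, and `S(T) - S(e T) = m + O(1 / T)` for `γ > π / 2`.
* `m = d` iff `S(T) - S(e T) → d` along the filter `l ≤ atTop`.
* If `w₀` is the sign: `w₀ = (-1)^m`, and `exp (π i (S(T) - S(e T))) = w₀ + O(1 / T)`. -/
theorem result (k : ℕ) (a : HeightOneSpectrum (𝓞 F) → Fin n → ℂ) (L : ℂ → ℂ)
    (h : IsLFunction k a L) :
    (∀ γ T : ℝ, 0 < T → Summable fun x => ‖term k a γ T x‖) ∧
    ∃ m : ℕ, analyticOrderAt L (centre k) = m ∧ ∀ γ : ℝ, Real.pi / 2 < γ →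
      (fun T : ℝ => diff k a γ T - m) =O[atTop] (fun T : ℝ => 1 / T) ∧
      (∀ᶠ T in atTop, round (diff k a γ T).re = m) ∧
      (∀ l : Filter ℝ, l.NeBot → l ≤ atTop → ∀ d : ℕ,
        (m = d ↔ Tendsto (diff k a γ) l (𝓝 (d : ℂ)))) ∧
      ∀ w₀ : ℂ, IsSign k L w₀ → w₀ = (-1) ^ m ∧
        (fun T : ℝ => Complex.exp (Real.pi * Complex.I * diff k a γ T) - w₀) =O[atTop]
          (fun T : ℝ => 1 / T) := by
  refine ⟨fun γ T hT => h.isL.summable γ hT, ?_⟩
  obtain ⟨m, hm, hlaw⟩ := order h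
  refine ⟨m, hm, fun γ hγ => ⟨hlaw γ hγ, ?_, fun l hl1 hl d => ?_, fun w₀ hs => ?_⟩⟩
  · have h1 : Tendsto (fun t => (diff k a γ t).re) atTop (𝓝 (m : ℝ)) := by
      have h2 := (Complex.continuous_re.tendsto (m : ℂ)).comp (tendsto_of_isBigO (hlaw γ hγ))
      rw [Complex.natCast_re] at h2
      exact h2
    filter_upwards [Metric.tendsto_nhds.1 h1 (1 / 2) (by norm_num)] with t ht
    rw [Real.dist_eq, abs_lt] at ht
    rw [round_eq, Int.floor_eq_iff]
    push_cast
    constructor <;> linarith [ht.1, ht.2]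
  · have hlim : Tendsto (diff k a γ) l (𝓝 (m : ℂ)) :=
      (tendsto_of_isBigO (hlaw γ hγ)).mono_left hl
    constructor
    · rintro rfl
      exact hlim
    · intro hd
      have h1 := tendsto_nhds_unique hlim hd
      exact_mod_cast h1
  · have hsign := sign h hm hs
    refine ⟨hsign, ?_⟩
    rw [hsign]
    exact exp_law (hlaw γ hγ)

end Pool.Agent.Results.MP_60ff09_nt.OrderAndSignByTraces
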