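import Mathlib
import Pool.Agent.Run7.h988.EQ.Main

/-!
# Beilinson's equality for triple products along towers of abelian extensions

Let `f` be an eigenform of weight `k`, `g`, `h` eigenforms of weight one, `ρ_g`, `ρ_h` their Artin
representations, factoring through the finite group `G = Gal(H/ℚ)`, `V` the representation of `G` on the
`f`-part of the Chow group of the Kuga-Sato variety over `H`, tensored with `ℂ`. Beilinson's conjecture is that
the order at `c = k/2` of `L(f ⊗ g ⊗ h, s) = L(f, ρ_g ⊗ ρ_h, s)` is the multiplicity of `ρ_g ⊗ ρ_h` in `V`.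
What can be attacked by automorphic methods are the twists of `f` by Hecke characters of finite order of the
fields between `ℚ` and `H`; the L-function of `ρ_g ⊗ ρ_h` is in general a QUOTIENT of products of these, and
nothing follows at a zero.

Let `ℚ ⊆ F₀ ⊆ F₁ ⊆ … ⊆ F_{n+1} ⊆ H` be Galois extensions of `ℚ` such that `F_{i+1}/F_i` is abelian for
`i ≤ n`, `N i = Gal(H/F_i)`, and `ρ_g ⊗ ρ_h` is trivial on `N (n + 1)`; if the images of `ρ_g` and `ρ_h` in
`PGL₂` are dihedral, `A₄` or `S₄` one may take `F₀ = ℚ` and `F_{n+1} = H`.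

**Theorem.** Suppose that for each `i ≤ n` and each nontrivial character `λ` of `Gal(F_{i+1}/F_i)` which
occurs in `ρ_g ⊗ ρ_h`, the L-function of `f` over `F_i` twisted by `λ` has order `r ≤ 1` at `c`, that `λ` has
the multiplicity `r` in `V`, and that, if `r = 1`, the L-function of `f` over the fixed field of the stabilizer
`S` of `λ` vanishes when twisted by a character of `S` which extends `λ` and occurs in `V`. Suppose the same for
the trivial character of `N 0`, or that the equality holds for all Artin representations of `Gal(F₀/ℚ)` (if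
`F₀ = ℚ` this is the equality for `f` itself, whatever the order). Suppose finally that the L-functions of `f`
over the subfields of `F_n`, twisted by Hecke characters, have no pole at `c`. Then the order of
`L(f ⊗ g ⊗ h, s)` at `c` is the multiplicity of `ρ_g ⊗ ρ_h` in `V`.

The order of `L(f ⊗ g ⊗ h, s)` may be larger than one: the condition is on the constituents of the restrictions.
-/

set_option autoImplicit false

open Filter Topology Pool.Agent.H541R3.ART

namespace Pool.Agent.Results.MP_60ff09_nt.TripleProductTowers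

/-- The L-functions `L χ` of the twists of the form `f` by the irreducible complex characters `χ` of
the group `G`, meromorphic and not identically zero near the centre `c`. -/
structure Twists (G : Type) [Group G] (c : ℂ) where
  /-- the L-functions -/
  L : (G → ℂ) → ℂ → ℂ
  /-- they are meromorphic and not identically zero near `c` -/
  mero : ∀ χ ∈ Irr G, MeromorphicAt (L χ) c ∧ meromorphicOrderAt (L χ) c ≠ ⊤

variable {G : Type} [Group G] {c : ℂ}

/-- `f` is the sum of `m χ` copies of `χ` over the irreducible complex characters `χ` of `G` -/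
def IsSum (f : G → ℂ) (m : (G → ℂ) → ℕ) : Prop :=
  ∀ g, f g = ∑ᶠ χ ∈ Irr G, (m χ : ℂ) * χ g

/-- the L-function of the character `f` of `G` (the product of the L-functions of the irreducible
constituents) has the order `k` at `c` -/
def HasOrder (D : Twists G c) (f : G → ℂ) (k : ℤ) : Prop :=
  ∃ m : (G → ℂ) → ℕ, IsSum f m ∧ meromorphicOrderAt (fun s => ∏ᶠ χ ∈ Irr G, D.L χ s ^ m χ) c = k

/-- the inner product of the characters `v` and `f` -/
noncomputable def mult (v f : G → ℂ) : ℂ := (Nat.card G : ℂ)⁻¹ * ∑ᶠ g : G, v g * f g⁻¹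

/-- the order of the L-function of `f` at `c` is the inner product of `v` and `f` -/
def Equality (D : Twists G c) (v f : G → ℂ) : Prop := ∃ k : ℕ, HasOrder D f k ∧ mult v f = k

open Classical in
/-- the function induced from a function on a subgroup: `(Ind f) g` is the sum of the values of `f` at
the conjugates `x⁻¹ g x ∈ H`, `x ∈ G`, divided by `|H|` -/
noncomputable def Ind (H : Subgroup G) (f : H → ℂ) (g : G) : ℂ :=
  (Nat.card H : ℂ)⁻¹ * ∑ᶠ x : G, if h : x⁻¹ * g * x ∈ H then f ⟨x⁻¹ * g * x, h⟩ else 0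

/-- the stabilizer of a linear character of the normal subgroup `N` under conjugation -/
def Stabilizer {N : Subgroup G} [N.Normal] (lam : N →* ℂˣ) : Subgroup G where
  carrier := {g | ∀ n : N, lam (MulAut.conjNormal g n) = lam n}
  one_mem' := fun n => by simp
  mul_mem' := fun {a b} ha hb n => by
    rw [map_mul, MulAut.mul_apply, ha, hb]
  inv_mem' := fun {a} ha n => by
    rw [← ha (MulAut.conjNormal a⁻¹ n), ← MulAut.mul_apply, ← map_mul, mul_inv_cancel, map_one,
      MulAut.one_apply]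

/-- the condition on the linear character `lam` of `N`: the L-function of `Ind lam` has an order `r ≤ 1` at
`c` and `r` is the inner product of `v` and `Ind lam`; if `r = 1`, the L-functions of the characters induced
from the extensions `ψ` of `lam` to its stabilizer which occur in `v` vanish at `c` -/
def Condition (D : Twists G c) (v : G → ℂ) {N : Subgroup G} [N.Normal] (lam : N →* ℂˣ) : Prop :=
  ∃ r : ℕ, r ≤ 1 ∧ HasOrder D (Ind N fun x => ((lam x : ℂˣ) : ℂ)) r ∧
    mult v (Ind N fun x => ((lam x : ℂˣ) : ℂ)) = r ∧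
    (r = 1 → ∀ ψ : Stabilizer lam →* ℂˣ,
      (∀ g, ∀ hs : g ∈ Stabilizer lam, ∀ hn : g ∈ N, ψ ⟨g, hs⟩ = lam ⟨g, hn⟩) →
      mult v (Ind (Stabilizer lam) fun x => ((ψ x : ℂˣ) : ℂ)) ≠ 0 →
      ¬ HasOrder D (Ind (Stabilizer lam) fun x => ((ψ x : ℂˣ) : ℂ)) 0)

theorem main {G : Type} [Group G] [Finite G] (D : Twists G c)
    {A : Type} [AddCommGroup A] [Module ℂ A] [FiniteDimensional ℂ A] (V : Representation ℂ G A)
    (n : ℕ) (N : ℕ → Subgroup G) [∀ i, (N i).Normal]
    (hdesc : ∀ i, N (i + 1) ≤ N i) (hab : ∀ i, ⁅N i, N i⁆ ≤ N (i + 1))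
    (hmon : ∀ (U : Subgroup G) (ψ : U →* ℂˣ), N n ≤ U →
      ∀ k : ℤ, HasOrder D (Ind U fun u => ((ψ u : ℂˣ) : ℂ)) k → 0 ≤ k)
    {W : Type} [AddCommGroup W] [Module ℂ W] [FiniteDimensional ℂ W] (ρ : Representation ℂ G W)
    (hρ : ∀ k ∈ N (n + 1), ∀ w, ρ k w = w)
    (hbase : Condition D V.character (1 : N 0 →* ℂˣ) ∨
      ∀ (B : Type) [AddCommGroup B] [Module ℂ B] [FiniteDimensional ℂ B] (σ : Representation ℂ G B),
        (∀ k ∈ N 0, ∀ b, σ k b = b) → Equality D V.character σ.character)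
    (hlam : ∀ i ≤ n, ∀ lam : N i →* ℂˣ, lam ≠ 1 →
      (∀ k, ∀ hk : k ∈ N (i + 1), lam ⟨k, hdesc i hk⟩ = 1) →
      ∑ᶠ k : N i, ρ.character k * (((lam k)⁻¹ : ℂˣ) : ℂ) ≠ 0 → Condition D V.character lam) :
    Equality D V.character ρ.character := by
  classical
  have hord : ∀ (f : G → ℂ) (k : ℤ), HasOrder D f k →
      Pool.Agent.W446.AS.pr (theta (Pool.Agent.R389.ords D.L c) : G → ℂ) f = k := by
    rintro f k ⟨m, hm, hk⟩
    obtain ⟨k', h1, h2⟩ := Run7.h988.EQ.ord_pr D.mero (f := f) (m := m) hm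
    rw [h2]
    have h3 : ((k : ℤ) : WithTop ℤ) = k' := hk.symm.trans h1
    have h4 : k = k' := WithTop.coe_eq_coe.mp h3
    rw [h4]
  have hord' : ∀ (U : Subgroup G) (ψ : U →* ℂˣ), ∃ k : ℤ, HasOrder D (Ind U fun u => ((ψ u : ℂˣ) : ℂ)) k := by
    intro U ψ
    obtain ⟨m, hm⟩ := Pool.Agent.R389.ind_isDecomp U ψ
    obtain ⟨k, h1, -⟩ := Run7.h988.EQ.ord_pr D.mero hm
    exact ⟨k, m, hm, h1⟩
  have hst : ∀ (M : Subgroup G) [M.Normal] (lam : M →* ℂˣ), Pool.Agent.R389.stb lam = Stabilizer lam := by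
    intro M _ lam
    ext g
    constructor
    · intro hg n
      exact Pool.Agent.R389.stb_inv hg n
    · intro hg
      rw [Pool.Agent.R389.mem_stb]
      refine MonoidHom.ext fun n => ?_
      rw [Pool.Agent.R389.cmu_apply]
      exact (Stabilizer lam).inv_mem hg n
  have hcnd : ∀ (M : Subgroup G) [M.Normal] (lam : M →* ℂˣ), Condition D V.character lam →
      ∃ r : ℕ, r ≤ 1 ∧ Pool.Agent.W446.AS.pr (theta (Pool.Agent.R389.ords D.L c) : G → ℂ)
          (Pool.Agent.R389.ind M (Pool.Agent.R389.lc lam)) = r ∧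
        Pool.Agent.W446.AS.pr V.character (Pool.Agent.R389.ind M (Pool.Agent.R389.lc lam)) = r ∧
        (r = 1 → ∀ ψ : Pool.Agent.R389.stb lam →* ℂˣ,
          (∀ k : M, ψ ⟨k, Pool.Agent.R389.le_stb lam k.2⟩ = lam k) →
          Pool.Agent.W446.AS.pr V.character (Pool.Agent.R389.ind (Pool.Agent.R389.stb lam) (Pool.Agent.R389.lc ψ)) ≠ 0 →
          Pool.Agent.W446.AS.pr (theta (Pool.Agent.R389.ords D.L c) : G → ℂ)
            (Pool.Agent.R389.ind (Pool.Agent.R389.stb lam) (Pool.Agent.R389.lc ψ)) ≠ 0) := by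
    rintro M _ lam ⟨r, hr, h1, h2, h3⟩
    have hP : ∀ S S' : Subgroup G, S = S' → (r = 1 → ∀ ψ : S' →* ℂˣ,
        (∀ g, ∀ hs : g ∈ S', ∀ hn : g ∈ M, ψ ⟨g, hs⟩ = lam ⟨g, hn⟩) →
        mult V.character (Ind S' fun x => ((ψ x : ℂˣ) : ℂ)) ≠ 0 →
        ¬ HasOrder D (Ind S' fun x => ((ψ x : ℂˣ) : ℂ)) 0) → (r = 1 → ∀ ψ : S →* ℂˣ,
        (∀ g, ∀ hs : g ∈ S, ∀ hn : g ∈ M, ψ ⟨g, hs⟩ = lam ⟨g, hn⟩) →
        mult V.character (Ind S fun x => ((ψ x : ℂˣ) : ℂ)) ≠ 0 →
        ¬ HasOrder D (Ind S fun x => ((ψ x : ℂˣ) : ℂ)) 0) := by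
      rintro S _ rfl h
      exact h
    refine ⟨r, hr, ?_, h2, ?_⟩
    · have h4 := hord _ _ h1
      exact_mod_cast h4
    · intro hr1 ψ hψ hv h0
      have h5 := hP _ _ (hst M lam) h3 hr1 ψ (fun g hs hn => hψ ⟨g, hn⟩) hv
      obtain ⟨k, hk⟩ := hord' (Pool.Agent.R389.stb lam) ψ
      have h6 := hord _ _ hk
      have h7 : ((k : ℤ) : ℂ) = 0 := h6.symm.trans h0
      have h8 : k = 0 := by exact_mod_cast h7
      rw [h8] at hk
      exact h5 hk
  have hcl : ∀ {B : Type} [AddCommGroup B] [Module ℂ B] [FiniteDimensional ℂ B] (σ : Representation ℂ G B),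
      σ.character ∈ AddSubmonoid.closure (Irr G) := fun σ => Pool.Agent.R389.char_memP _ σ rfl
  have hmain := Run7.h988.EQ.main_eq (l := D.L) (c := c) (hcl V) n N hdesc hab (fun U ψ hU => ?_) ρ
    (fun g k hk => ?_) ?_ ?_
  · obtain ⟨m, hm⟩ := Pool.Agent.R389.decomp_of_closure (hcl ρ)
    obtain ⟨k, h1, h2⟩ := Run7.h988.EQ.ord_pr D.mero hm
    obtain ⟨j, hj⟩ := Run7.h988.EQ.nat_pr (hcl V) (hcl ρ)
    rw [hmain, hj] at h2
    have h3 : (j : ℤ) = k := by exact_mod_cast h2
    refine ⟨j, ⟨m, hm, ?_⟩, hj⟩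
    rw [h3]
    exact h1
  · obtain ⟨k, hk⟩ := hord' U ψ
    have h1 := hmon U ψ hU k hk
    obtain ⟨j, rfl⟩ := Int.eq_ofNat_of_zero_le h1
    refine ⟨j, ?_⟩
    have h2 := hord _ _ hk
    exact_mod_cast h2
  · have h1 : ρ (g * k) = ρ g := by
      refine LinearMap.ext fun w => ?_
      rw [map_mul, Module.End.mul_apply, hρ k hk]
    change LinearMap.trace ℂ W (ρ (g * k)) = LinearMap.trace ℂ W (ρ g)
    rw [h1]
  · rcases hbase with h | h
    · exact Or.inr (hcnd (N 0) 1 h)
    · left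
      obtain ⟨B, σ, hσ, hσc⟩ := Pool.Agent.R389.isotypic (RingHom.id ℂ) (N 0) 1 ρ
      obtain ⟨k, h1, h2⟩ := h B σ (fun k hk w => by
        have := hσ k hk w
        simpa using this)
      have h3 : σ.character = Pool.Agent.R389.inv (N 0) ρ.character := by
        funext g
        have h4 := hσc g
        refine h4.trans ?_
        have h5 : ((Units.map (RingHom.id ℂ).toMonoidHom).comp (1 : G →* ℂˣ)) = 1 := by
          ext x
          simp
        rw [h5]
        change Pool.Agent.R389.inv (N 0) (fun g => ρ.character g * (((1 : G →* ℂˣ)⁻¹ g : ℂˣ) : ℂ)) g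
          * (((1 : G →* ℂˣ) g : ℂˣ) : ℂ) = _
        simp
      rw [← h3]
      have h6 := hord _ _ h1
      rw [h6]
      have h7 : Pool.Agent.W446.AS.pr V.character σ.character = k := h2
      rw [h7]
      simp
  · intro i hi lam hne h1 hocc
    exact hcnd (N i) lam (hlam i hi lam hne h1 hocc)

/-- **Beilinson's equality for triple products.** -/
theorem result {G : Type} [Group G] [Finite G] (D : Twists G c)
    {A : Type} [AddCommGroup A] [Module ℂ A] [FiniteDimensional ℂ A] (V : Representation ℂ G A)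
    (n : ℕ) (N : ℕ → Subgroup G) [∀ i, (N i).Normal]
    (hdesc : ∀ i, N (i + 1) ≤ N i) (hab : ∀ i, ⁅N i, N i⁆ ≤ N (i + 1))
    (hmon : ∀ (U : Subgroup G) (ψ : U →* ℂˣ), N n ≤ U →
      ∀ k : ℤ, HasOrder D (Ind U fun u => ((ψ u : ℂˣ) : ℂ)) k → 0 ≤ k)
    {V₁ V₂ : Type} [AddCommGroup V₁] [Module ℂ V₁] [FiniteDimensional ℂ V₁] [AddCommGroup V₂] [Module ℂ V₂]
    [FiniteDimensional ℂ V₂] (ρ₁ : Representation ℂ G V₁) (ρ₂ : Representation ℂ G V₂)
    (hρ : ∀ k ∈ N (n + 1), (ρ₁.tprod ρ₂) k = 1)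
    (hbase : Condition D V.character (1 : N 0 →* ℂˣ) ∨
      ∀ (B : Type) [AddCommGroup B] [Module ℂ B] [FiniteDimensional ℂ B] (σ : Representation ℂ G B),
        (∀ k ∈ N 0, ∀ b, σ k b = b) → Equality D V.character σ.character)
    (hlam : ∀ i ≤ n, ∀ lam : N i →* ℂˣ, lam ≠ 1 →
      (∀ k, ∀ hk : k ∈ N (i + 1), lam ⟨k, hdesc i hk⟩ = 1) →
      ∑ᶠ k : N i, ρ₁.character k * ρ₂.character k * (((lam k)⁻¹ : ℂˣ) : ℂ) ≠ 0 → Condition D V.character lam) :
    Equality D V.character (fun g => ρ₁.character g * ρ₂.character g) := by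
  have hc : ∀ g, (ρ₁.tprod ρ₂).character g = ρ₁.character g * ρ₂.character g := by
    intro g
    exact LinearMap.trace_tensorProduct' _ _
  have h1 := main D V n N hdesc hab hmon (ρ₁.tprod ρ₂) (fun k hk w => by rw [hρ k hk]; rfl) hbase
    (fun i hi lam hne h1 hocc => hlam i hi lam hne h1 (by
      have h2 : ∀ k : N i, (ρ₁.tprod ρ₂).character k * (((lam k)⁻¹ : ℂˣ) : ℂ) =
          ρ₁.character k * ρ₂.character k * (((lam k)⁻¹ : ℂˣ) : ℂ) := fun k => by rw [hc]
      rwa [finsum_congr h2] at hocc))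
  have h2 : (ρ₁.tprod ρ₂).character = fun g => ρ₁.character g * ρ₂.character g := funext hc
  rwa [h2] at h1

end Pool.Agent.Results.MP_60ff09_nt.TripleProductTowers
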