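import Pool.Agent.Results.MP_787500_nt.AllWeightsMultiquadraticX49
import Pool.Agent.Results.MP_6e2fc3_nt.CMFormsAllWeights
import Pool.Agent.Run7.h359.Jnt
import Pool.Agent.Run7.h359.Tpm
import Pool.Agent.Run7.h359.Inv
import Pool.Agent.Run7.h359.Mwb

/-!
# The triple products of weights `(2k, 1, 1)`, `k` odd, for the twists of `X_0(49)`

`K = ℚ(√-7)`. Let `E_M` be the quadratic twist by `M` of `X_0(49)`, an elliptic curve over `ℚ` with
complex multiplication over `K`, `ψ_M` its Hecke character, and for odd `k > 0` let `f` be the newform of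
weight `2k` of `ψ_M^{2k-1}` (for `k = 1` the newform of `E_M`). Let `L = ℚ(√-7, √d_1, …, √d_n)`. We treat
**all** the pairs `(g, h)` of eigenforms of weight one such that the field `H` of `V_gh = V_g ⊗ V_h` is
contained in `L`. For example: for every biquadratic field `B ⊆ L` that is not real there are cusp forms `g`
with the projective field `B` (the projective image of `ρ_g` is the group of Klein), and then
`h = g^* ⊗ η`, `η` a quadratic character of `L`, has this property; or `g` and `h` are Eisenstein series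
for the characters `θ, θ η_1` and `θ⁻¹, θ⁻¹ η_2` with an arbitrary Dirichlet character `θ` and quadratic
characters `η_1`, `η_2` of `L`.

Theorem. The class consists of the squarefree `D = 1 mod 8` with all prime factors `1 mod 4`. Suppose that
`(M, d)` is good: all the numbers `M ∏_{i ∈ S} d_i` are, up to squares, numbers `D` of the class such that
`E_D(ℚ)` is finite and `Ш(E_D/ℚ)` has no element of order two (a condition on weight `2` and `ℚ` only).
Then for **all** odd `k > 0` and **all** these pairs `(g, h)`: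
* `L(f ⊗ g ⊗ h, s)` is entire and not zero at the centre `s = k`, so that the left side of Beilinson's
  equality is zero. (In the Lean the Euler factors at the prime divisors of `14 M ∏ d_i` are left out; they
  have neither a pole nor a zero at `s = k`.)
* `H⁰(L, V_f(k)) = 0` and `H¹_f(L, V_f(k)) = 0` for the `2`-adic representation `V_f(k)`, whose restriction
  to the Galois group of `K` is `κ^k κ'^(1-k) ⊕ κ^(1-k) κ'^k`. So `Hom(V_gh, H¹_f(H, V_f(k))) = 0`, the
  Galois side of the right side (the conjecture of Bloch and Kato says that it is equal to it).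
* `E_M(L)` is a torsion group. So for `k = 1` the right side itself, `Hom(V_gh, E_M(H) ⊗ ℂ)`, is zero, and
  Beilinson's equality holds: both sides are zero.

The joint law. Let `d_1, …, d_n` be members of the class, independent modulo squares, and let `T` be a
finite set of members of the class that are pairwise different modulo the `d_i` and squares. For every
`V ⊆ T` the set of the `M ∈ T` with `(M N, d)` good is equal to `V` for exactly the proportion
`(c^(2^n))^|V| (1 - c^(2^n))^(|T| - |V|)` of the `N` of the class, `c = ∏_{i ≥ 0} (1 - 2^{-2i-1}) = 0.4194…`,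
and for the norms `N = a² + b² = 1 mod 8` this is the case for exactly a quarter of that proportion of
**all** the pairs `(a, b)` of integers, ordered by `a² + b²`. For these `N` the statements above hold for
the forms `f` of all odd `k` and all the curves `E_{MN}`, `M ∈ V`, at the same time.

Proof. The representation `V_gh` is trivial on the common kernel of the quadratic characters of `√-7` and
the `√d_i`; its matrices are commuting involutions, so it is a sum of products of these characters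
(`Run7/h359/Tpd`), whose values at the Frobenius automorphisms are the symbols of Legendre (`Tpf`, `Tps`).
As `f ⊗ χ_{-7} = f`, the `L`-function is the product of four `L`-functions of the forms of the twists
`E_D` (`Tpm`), whose central values are not zero (helper359, `MP_ec4e4b_nt/OddWeightsMultiquadratic`: the
congruences of the Eisenstein–Kronecker numbers modulo four). The Selmer groups: `Run7/h359/Wal`, from the
analysis in the starting files (`Pool/Agent/R384`). The joint law: `Run7/h359/La1` to `La15`, after the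
laws without the condition modulo `8` in `R413` (starting files) and `Run7/h428` (helper428). The group
`E_M(L)` (`Run7/h359/Mwa`, `Mwb`): twice a point is the sum of eigenvectors for the characters of the Galois
group of `L` over `ℚ`, by induction; the eigenvectors for the real characters come from the finite groups
`E_D(ℚ)`, the multiplication by `√-7` maps the others to these, and its kernel is finite by the explicit
formulas for the two endomorphisms of degree two.
-/

set_option autoImplicit false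

namespace Pool.Agent.Results.MP_60ff09_nt.TripleProductsX49

open Pool.Agent.Results.MP_787500_nt.AllWeightsMultiquadraticX49
open Pool.Agent.Results.MP_6e2fc3_nt.CMFormsAllWeights
open Run7.h359.Jnt
open NumberField IsDedekindDomain WeierstrassCurve Matrix
open scoped Kronecker Classical

/-! ### The triple product `L`-function -/

/-- `α ^ n + β ^ n`, where `α + β = a` and `α β = e`. -/
def powerSum (a e : ℤ) : ℕ → ℤ
  | 0 => 2
  | 1 => a
  | n + 2 => a * powerSum a e (n + 1) - e * powerSum a e n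

/-- The local polynomial `1 - a T + e T² = (1 - α T) (1 - β T)` of the curve `W` at the place `v`: at the
places of good reduction `e` is the norm `q` of `v` and `a = q + 1 - #W(k_v)`. -/
noncomputable def localPoly (W : WeierstrassCurve ℚ) (v : HeightOneSpectrum (𝓞 ℚ)) : Polynomial ℤ :=
  (W.baseChange (v.adicCompletion ℚ)).localPolynomial (v.adicCompletionIntegers ℚ)

/-- The automorphism `σ` of `ℚ̄` is a Frobenius automorphism at the prime number `p`: there is a prime
ideal `P` over `p` of the ring of all the algebraic integers such that `σ x = x ^ p` modulo `P` for all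
algebraic integers `x`. -/
def IsFrobenius (p : ℕ) (σ : GQ) : Prop :=
  ∃ P : Ideal (integralClosure ℤ QBar), P.IsPrime ∧ (p : integralClosure ℤ QBar) ∈ P ∧
    ∀ x y : integralClosure ℤ QBar, (y : QBar) = σ (x : QBar) → y - x ^ p ∈ P

/-- The matrix of `σ` in `V_g ⊗ V_h`. -/
noncomputable def tensor (ρg ρh : GQ →* GL (Fin 2) ℂ) (σ : GQ) :
    Matrix (Fin 2 × Fin 2) (Fin 2 × Fin 2) ℂ :=
  (ρg σ : Matrix (Fin 2) (Fin 2) ℂ) ⊗ₖ (ρh σ : Matrix (Fin 2) (Fin 2) ℂ)

/-- The field `H` of `V_gh = V_g ⊗ V_h` is contained in `L = ℚ(w, s_1, …, s_n)`: `V_gh` is trivial on the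
Galois group of `L`. -/
def FieldLE (w : QBar) {n : ℕ} (s : Fin n → QBar) (ρg ρh : GQ →* GL (Fin 2) ℂ) : Prop :=
  ∀ σ : GQ, σ w = w → (∀ i, σ (s i) = s i) → tensor ρg ρh σ = 1

/-- The Euler factor `det (1 - (α^m + β^m) q^{-z} V_gh(σ) + (α β)^m q^{-2z} V_gh(σ)²)⁻¹` of
`V_f ⊗ V_g ⊗ V_h`, `m = 2k - 1`, at the place `v` of norm `q`, where `(1 - α T) (1 - β T)` is the local
polynomial of `E_M` and `σ` is a Frobenius automorphism. -/
noncomputable def euler (M k : ℕ) (ρg ρh : GQ →* GL (Fin 2) ℂ) (σ : GQ) (z : ℂ)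
    (v : HeightOneSpectrum (𝓞 ℚ)) : ℂ :=
  (1 - ((powerSum (-(localPoly (E M) v).coeff 1) ((localPoly (E M) v).coeff 2) (2 * k - 1) : ℂ) *
      (Ideal.absNorm v.asIdeal : ℂ) ^ (-z)) • tensor ρg ρh σ +
    (((localPoly (E M) v).coeff 2 : ℂ) ^ (2 * k - 1) * ((Ideal.absNorm v.asIdeal : ℂ) ^ (-z)) ^ 2) •
      tensor ρg ρh σ ^ 2).det⁻¹

/-- `Λ` is the entire continuation of `L(f ⊗ g ⊗ h, s)`, `f` the newform of weight `2k` of
`ψ_M^{2k-1}`, without the Euler factors at the prime divisors of `14 M ∏ d_i`: for every choice of Frobenius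
automorphisms `φ v` at all the places the Euler product converges to `Λ(z)` for `Re z > k + 1/2`. The centre
is `k`. -/
def IsTripleL (M : ℕ) {n : ℕ} (d : Fin n → ℕ) (k : ℕ) (ρg ρh : GQ →* GL (Fin 2) ℂ) (Λ : ℂ → ℂ) : Prop :=
  Differentiable ℂ Λ ∧
    ∀ φ : HeightOneSpectrum (𝓞 ℚ) → GQ, (∀ v, IsFrobenius (Ideal.absNorm v.asIdeal) (φ v)) →
      ∀ z : ℂ, (k : ℝ) + 1 / 2 < z.re →
        HasProd (fun v : HeightOneSpectrum (𝓞 ℚ) =>
          if ((14 * M * ∏ i, d i : ℕ) : 𝓞 ℚ) ∈ v.asIdeal then 1 else euler M k ρg ρh (φ v) z v) (Λ z)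

/-! ### The group `E_M(L)` -/

/-- The group `E_M(ℚ̄)`. -/
abbrev Points (M : ℕ) : Type := ((E M).toAffine.baseChange QBar).Point

/-- The action of the Galois group of `ℚ` on the coordinates of the points. -/
noncomputable def galois {M : ℕ} (σ : GQ) : Points M →+ Points M :=
  Affine.Point.map (W' := (E M).toAffine) (S := ℚ) (F := QBar) (K := QBar) σ.toAlgHom

/-- `E_M(L)` is a torsion group, `L = ℚ(w, s_1, …, s_n)`: the points with coordinates in `L` have finite
order. So `E_M(L) ⊗ ℂ = 0`. -/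
def TorsionL (M : ℕ) (w : QBar) {n : ℕ} (s : Fin n → QBar) : Prop :=
  ∀ P : Points M, (∀ σ : GQ, σ w = w → (∀ i, σ (s i) = s i) → galois σ P = P) → IsOfFinAddOrder P

/-! ### The statement -/

/-- `H⁰(L, ℚ_2(χ)) = 0` for `L = K(s_1, …, s_n)`. -/
def NoInvariants {w : QBar} {n : ℕ} (s : Fin n → QBar) (χ : Chr w) : Prop :=
  ∀ y : ℚ_[2], (∀ σ ∈ GalL w s, qv χ σ * y = y) → y = 0

/-- The curve `E_M` is over `K = ℚ(w)` isomorphic to the elliptic curve `ED w (tw M)`, the absolute Galois
group of `K` acts on its `2`-adic Tate module by `κ`, `κ'`; with `L = K(√d_1, …, √d_n)` the group `E_M(L)` is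
a torsion group, and for **all** odd `k > 0`: for **all** pairs `(g, h)` such that the field of `V_gh` is contained in `L` the
function `L(f ⊗ g ⊗ h, s)` is entire and not zero at the centre, and `H⁰(L, V_f(k)) = 0` and
`H¹_f(L, V_f(k)) = 0`, that is, both groups are zero for `κ^k κ'^(1-k)` and `κ^(1-k) κ'^k`. -/
def TripleProducts (M : ℕ) {n : ℕ} (d : Fin n → ℕ) : Prop := ∀ w : QBar, w ^ 2 = w - 2 →
  Iso (EK w M) (ED w (tw M)) ∧ (ED w (tw M)).IsElliptic ∧
  ∃ κ κ' : Chr w, TateModule (tw M) κ κ' ∧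
    ∀ s : Fin n → QBar, (∀ i, s i ^ 2 = (d i : QBar)) → TorsionL M w s ∧ ∀ k : ℕ, Odd k →
      (∀ ρg ρh : GQ →* GL (Fin 2) ℂ, FieldLE w s ρg ρh →
        ∃ Λ : ℂ → ℂ, IsTripleL M d k ρg ρh Λ ∧ Λ k ≠ 0) ∧
      (NoInvariants s (chi κ κ' k) ∧ NoInvariants s (chi κ κ' (1 - k))) ∧
      SelmerZero (1 - w) (GalL w s) (chi κ κ' k) ∧ SelmerZero w (GalL w s) (chi κ κ' (1 - k))

section proof

open Pool.Agent.W189.NF Pool.Agent.H921R2.TatePole

lemma powerSum_pw (a e : ℤ) : ∀ n : ℕ, ((powerSum a e n : ℤ) : ℂ) = W165.CE.pw (a : ℂ) (e : ℂ) n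
  | 0 => by simp [powerSum, W165.CE.pw]
  | 1 => by simp [powerSum, W165.CE.pw]
  | n + 2 => by
    rw [powerSum, W165.CE.pw, ← powerSum_pw a e (n + 1), ← powerSum_pw a e n]
    push_cast
    ring

lemma coeffs (W : WeierstrassCurve ℚ) (v : HeightOneSpectrum (𝓞 ℚ)) :
    (localPoly W v).coeff 1 = -aV W v ∧ (localPoly W v).coeff 2 = eV W v := by
  unfold localPoly aV eV
  rw [localPolynomial_eq]
  constructor
  · rw [Polynomial.coeff_add, Polynomial.coeff_sub, Polynomial.coeff_C_mul, Polynomial.coeff_C_mul,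
      Polynomial.coeff_X, Polynomial.coeff_X_pow, Polynomial.coeff_one]
    norm_num
  · rw [Polynomial.coeff_add, Polynomial.coeff_sub, Polynomial.coeff_C_mul, Polynomial.coeff_C_mul,
      Polynomial.coeff_X, Polynomial.coeff_X_pow, Polynomial.coeff_one]
    norm_num

theorem euler_eq (M k : ℕ) (ρg ρh : GQ →* GL (Fin 2) ℂ) (σ : GQ) (z : ℂ)
    (v : HeightOneSpectrum (𝓞 ℚ)) : euler M k ρg ρh σ z v =
      (1 - (W165.CE.pw (aV (Run7.h359.FE.cur (M : ℚ)) v : ℂ) (eV (Run7.h359.FE.cur (M : ℚ)) v : ℂ)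
        (2 * k - 1) * (Ideal.absNorm v.asIdeal : ℂ) ^ (-z)) • tensor ρg ρh σ +
        ((eV (Run7.h359.FE.cur (M : ℚ)) v : ℂ) ^ (2 * k - 1) *
          ((Ideal.absNorm v.asIdeal : ℂ) ^ (-z)) ^ 2) • tensor ρg ρh σ ^ 2).det⁻¹ := by
  have hE : E M = Run7.h359.FE.cur (M : ℚ) := rfl
  unfold euler
  rw [(coeffs (E M) v).1, (coeffs (E M) v).2, neg_neg, powerSum_pw, hE]

theorem tensor_one (ρg ρh : GQ →* GL (Fin 2) ℂ) : tensor ρg ρh 1 = 1 := by
  unfold tensor
  rw [map_one, map_one, Units.val_one, one_kronecker_one]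

theorem tensor_mul (ρg ρh : GQ →* GL (Fin 2) ℂ) (σ τ : GQ) :
    tensor ρg ρh (σ * τ) = tensor ρg ρh σ * tensor ρg ρh τ := by
  unfold tensor
  rw [map_mul, map_mul, Units.val_mul, Units.val_mul, mul_kronecker_mul]

theorem lfun {M n : ℕ} {d : Fin n → ℕ} (hG : GoodPair M d) {w : QBar} (hw : w ^ 2 = w - 2)
    {s : Fin n → QBar} (hs : ∀ i, s i ^ 2 = (d i : QBar)) {k : ℕ} (hk : Odd k)
    {ρg ρh : GQ →* GL (Fin 2) ℂ} (hρ : FieldLE w s ρg ρh) :
    ∃ Λ : ℂ → ℂ, IsTripleL M d k ρg ρh Λ ∧ Λ k ≠ 0 := by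
  obtain ⟨Λ, g1, g2, g3⟩ := Run7.h359.TP.tensor_lfun hG hw hs hk (tensor ρg ρh)
    (tensor_one ρg ρh) (tensor_mul ρg ρh) hρ IsFrobenius fun p σ h => h
  refine ⟨Λ, ⟨g1, fun φ hφ z hz => ?_⟩, g3⟩
  simp only [euler_eq]
  exact g2 φ hφ z hz

theorem torsion {M n : ℕ} {d : Fin n → ℕ} (hG : GoodPair M d) {w : QBar} (hw : w ^ 2 = w - 2)
    {s : Fin n → QBar} (hs : ∀ i, s i ^ 2 = (d i : QBar)) : TorsionL M w s := by
  have h0 : ∀ S : Finset (Fin n), M * ∏ i ∈ S, d i ≠ 0 := by
    intro S
    obtain ⟨D, k, hk, hD, -, h1⟩ := hG S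
    rw [h1]
    exact mul_ne_zero hD.1.ne_zero (pow_ne_zero 2 hk)
  exact fun P hP => Run7.h359.MW.tor (fun h => h0 ∅ (by rw [h, zero_mul])) hw
    (fun i h => h0 {i} (by rw [Finset.prod_singleton, h, mul_zero])) hs
    (fun S => by
      obtain ⟨D, k, hk, -, hR, h1⟩ := hG S
      exact ⟨D, k, hk, hR.1, h1⟩) P hP

theorem triple_of {M n : ℕ} {d : Fin n → ℕ} (hG : GoodPair M d) : TripleProducts M d := by
  intro w hw
  obtain ⟨h1, h2, κ, κ', h3, h4⟩ := Run7.h359.WD.all_ofW hG hw
  refine ⟨h1, h2, κ, κ', h3, fun s hs => ⟨torsion hG hw hs, fun k hk => ?_⟩⟩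
  obtain ⟨h5, h6⟩ := h4 s hs
  have hkp : (0 : ℤ) < (k : ℤ) := by exact_mod_cast hk.pos
  have hko : Odd (k : ℤ) := by exact_mod_cast hk
  obtain ⟨h7, h8⟩ := h5 k hkp hko
  exact ⟨fun ρg ρh hρ => lfun hG hw hs hk hρ,
    ⟨Run7.h359.IV.noInvL_of (h6 k), Run7.h359.IV.noInvL_of (h6 (1 - k))⟩, h7, h8⟩

end proof

/-- **The triple products of weights `(2k, 1, 1)`, `k` odd, and the joint law.** -/
theorem result :
    (∀ (n M : ℕ) (d : Fin n → ℕ), GoodPair M d → TripleProducts M d) ∧
    (∀ (n : ℕ) (d : Fin n → ℕ) (T V : Finset ℕ), (∀ i, Wide (d i)) → Ind d → (∀ M ∈ T, Wide M) →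
      Separated d T → V ⊆ T →
      Proportion (prob n T V) (fun N => IsPattern d T V N ∧ ∀ M ∈ V, TripleProducts (M * N) d) ∧
      PairProportion (prob n T V / 4)
        (fun N => N % 8 = 1 ∧ IsPattern d T V N ∧ ∀ M ∈ V, TripleProducts (M * N) d)) ∧
    0.4194 < c ∧ c < 0.4195 := by
  obtain ⟨-, -, -, h4, h5⟩ := Pool.Agent.Results.MP_787500_nt.AllWeightsMultiquadraticX49.result
  exact ⟨fun n M d h => triple_of h, fun n d T V hd hI hT hsep hV =>
    joint hd hI hT hsep hV (fun N => TripleProducts N d) fun N hN => triple_of hN, h4, h5⟩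

end Pool.Agent.Results.MP_60ff09_nt.TripleProductsX49
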